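import Mathlib

/-!
Elementary arithmetic: the one-dimensional badly approximable blocks.
-/

namespace Pool.Agent.Lib.MP_fe6546_nt

/-- Arbitrarily large solutions of `p ^ 2 = 2 * r ^ 2 + 1`. -/
theorem pell_exists (B : ℕ) : ∃ r p : ℕ, B ≤ r ∧ p ^ 2 = 2 * r ^ 2 + 1 := by
  induction B with
  | zero => exact ⟨0, 1, le_rfl, by norm_num⟩
  | succ B ih =>
    obtain ⟨r, p, hr, hp⟩ := ih
    refine ⟨2 * p + 3 * r, 3 * p + 4 * r, ?_, ?_⟩
    · have hp0 : 0 < p := by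
        rcases Nat.eq_zero_or_pos p with h | h
        · subst h; simp at hp
        · exact h
      omega
    · nlinarith

theorem sq_ne_two_sq (k w : ℤ) (hw : 1 ≤ w) : k ^ 2 - 2 * w ^ 2 ≠ 0 := by
  intro h
  have h1 : (2 : ℤ) = (k / w : ℚ) ^ 2 := by
    have hw' : (w : ℚ) ≠ 0 := by
      have : (0 : ℚ) < w := by exact_mod_cast (by omega : 0 < w)
      exact this.ne'
    have h2 : (k : ℚ) ^ 2 = 2 * (w : ℚ) ^ 2 := by
      have : (k : ℤ) ^ 2 = 2 * w ^ 2 := by linarith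
      exact_mod_cast this
    field_simp
    push_cast
    linarith
  have h3 : Irrational (Real.sqrt 2) := irrational_sqrt_two
  apply h3
  refine ⟨|(k / w : ℚ)|, ?_⟩
  have h4 : ((2 : ℝ)) = (((k / w : ℚ)) : ℝ) ^ 2 := by
    have h5 : ((2 : ℚ)) = (k / w : ℚ) ^ 2 := by exact_mod_cast h1
    exact_mod_cast h5
  rw [Rat.cast_abs, h4, Real.sqrt_sq_eq_abs]

/-- Lemma Q: the rational number `s = r / (a r + p)` is badly approximable with constant `1/16`
in the indicated range. -/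
theorem lemmaQ (a r p : ℕ) (N w : ℤ) (hr : 2 ≤ r) (hp : p ^ 2 = 2 * r ^ 2 + 1) (hN : 1 ≤ N)
    (h1 : (1 : ℝ) / 2 ≤ (r : ℝ) / (a * r + p) * N) (h2 : (r : ℝ) / (a * r + p) * N ≤ r / 4) :
    1 / (16 * (N : ℝ)) ≤ |(r : ℝ) / (a * r + p) * N - w| := by
  have hNr : (1 : ℝ) ≤ N := by exact_mod_cast hN
  have hNpos : (0 : ℝ) < N := by linarith
  have hrr : (2 : ℝ) ≤ r := by exact_mod_cast hr
  have hpr : (p : ℝ) ^ 2 = 2 * (r : ℝ) ^ 2 + 1 := by exact_mod_cast hp
  have hp0 : (0 : ℝ) ≤ p := Nat.cast_nonneg p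
  have ha0 : (0 : ℝ) ≤ a := Nat.cast_nonneg a
  have hp1 : (r : ℝ) ≤ p := by
    apply le_of_sq_le_sq _ hp0
    rw [hpr]; nlinarith [sq_nonneg (r : ℝ)]
  have hp2 : (p : ℝ) ≤ 3 / 2 * r := by
    apply le_of_sq_le_sq _ (by positivity)
    rw [hpr]; nlinarith
  set R : ℝ := a * r + p with hR
  have hRpos : 0 < R := by
    have : (0 : ℝ) ≤ a * r := by positivity
    linarith
  have hrpos : (0 : ℝ) < r := by linarith
  set s : ℝ := r / R with hs
  have hspos : 0 < s := by positivity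
  have hb : 1 / (16 * (N : ℝ)) ≤ 1 / 16 := by
    apply one_div_le_one_div_of_le (by norm_num); linarith
  rcases le_or_gt w 0 with hw | hw
  · have : (w : ℝ) ≤ 0 := by exact_mod_cast hw
    rw [abs_of_nonneg (by linarith)]
    linarith
  have hw1 : (1 : ℝ) ≤ w := by exact_mod_cast hw
  by_cases hwr : (r : ℝ) / 2 < w
  · rw [abs_sub_comm, abs_of_nonneg (by linarith)]
    linarith
  push Not at hwr
  by_cases hws : 2 * (s * N) < w
  · rw [abs_sub_comm, abs_of_nonneg (by linarith)]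
    linarith
  push Not at hws
  set k : ℤ := N - a * w with hk
  have hk2 := sq_ne_two_sq k w (by omega)
  have hk3 : ((k : ℝ) ^ 2 - 2 * (w : ℝ) ^ 2) ≤ -1 ∨ (1 : ℝ) ≤ ((k : ℝ) ^ 2 - 2 * (w : ℝ) ^ 2) := by
    rcases lt_or_gt_of_ne hk2 with h | h
    · left
      have : k ^ 2 - 2 * w ^ 2 ≤ -1 := by omega
      exact_mod_cast this
    · right
      have : 1 ≤ k ^ 2 - 2 * w ^ 2 := by omega
      exact_mod_cast this
  obtain ⟨x, hx⟩ : ∃ x : ℝ, x = (k : ℝ) := ⟨_, rfl⟩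
  obtain ⟨y, hy⟩ : ∃ y : ℝ, y = (w : ℝ) := ⟨_, rfl⟩
  obtain ⟨n, hn⟩ : ∃ n : ℝ, n = (N : ℝ) := ⟨_, rfl⟩
  have hkr : x = n - a * y := by rw [hx, hk, hy, hn]; push_cast; ring
  rw [← hx, ← hy] at hk3
  rw [← hy] at hwr hws hw1 ⊢
  rw [← hn] at hws hNr hNpos h1 h2 hb ⊢
  clear_value k
  have hkey : s * n - y = (r * x - p * y) / R := by
    rw [eq_div_iff hRpos.ne', hkr]
    have h8 : s * R = r := by rw [hs]; field_simp
    calc (s * n - y) * R = (s * R) * n - y * R := by ring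
      _ = _ := by rw [h8, hR]; ring
  rw [hkey, abs_div, abs_of_pos hRpos]
  by_cases hbig : (r : ℝ) / 2 ≤ |r * x - p * y|
  · have h3 : s / 2 ≤ |r * x - p * y| / R := by
      rw [hs, div_div, mul_comm, ← div_div]
      gcongr
    refine le_trans ?_ h3
    rw [div_le_iff₀ (by positivity)]
    linarith
  push Not at hbig
  have hlt := abs_lt.mp hbig
  have hy0 : 0 ≤ y := by linarith
  have t1 : (r : ℝ) * y ≤ p * y := mul_le_mul_of_nonneg_right hp1 hy0
  have t2 : (p : ℝ) * y ≤ 3 / 2 * r * y := mul_le_mul_of_nonneg_right hp2 hy0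
  have t3 : (r : ℝ) ≤ r * y := le_mul_of_one_le_right hrpos.le hw1
  have hkpos : (0 : ℝ) < r * x := by linarith [hlt.1]
  have hprod : (3 / 4 : ℝ) * r ^ 2 ≤ |r * x - p * y| * (r * x + p * y) := by
    have e1 : (r * x - p * y) * (r * x + p * y) = (r : ℝ) ^ 2 * (x ^ 2 - 2 * y ^ 2) - y ^ 2 := by
      have : (p : ℝ) ^ 2 * y ^ 2 = (2 * (r : ℝ) ^ 2 + 1) * y ^ 2 := by rw [hpr]
      linarith
    have e2 : |r * x - p * y| * (r * x + p * y) = |(r : ℝ) ^ 2 * (x ^ 2 - 2 * y ^ 2) - y ^ 2| := by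
      rw [← e1, abs_mul, abs_of_nonneg (by positivity : (0 : ℝ) ≤ r * x + p * y)]
    rw [e2]
    have hw2 : y ^ 2 ≤ (r : ℝ) ^ 2 / 4 := by
      have : y ^ 2 ≤ ((r : ℝ) / 2) ^ 2 := by gcongr
      linarith [this, (by ring : ((r : ℝ) / 2) ^ 2 = (r : ℝ) ^ 2 / 4)]
    have hy2 : 0 ≤ y ^ 2 := sq_nonneg y
    have hr2 : 0 ≤ (r : ℝ) ^ 2 := sq_nonneg _
    rcases hk3 with h' | h'
    · have t := mul_le_mul_of_nonneg_left h' hr2
      rw [abs_of_nonpos (by linarith)]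
      linarith
    · have t := mul_le_mul_of_nonneg_left h' hr2
      rw [abs_of_nonneg (by linarith)]
      linarith
  have hsum : r * x + p * y ≤ 7 / 2 * r * y := by linarith [hlt.2]
  have hlow : (3 / 14 : ℝ) * r ≤ |r * x - p * y| * y := by
    have h5 : |r * x - p * y| * (r * x + p * y) ≤ |r * x - p * y| * (7 / 2 * r * y) := by
      gcongr
    have h6 : (r : ℝ) * ((3 / 4) * r) ≤ r * ((7 / 2) * (|r * x - p * y| * y)) := by
      calc (r : ℝ) * ((3 / 4) * r) = (3 / 4 : ℝ) * r ^ 2 := by ring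
        _ ≤ |r * x - p * y| * (7 / 2 * r * y) := hprod.trans h5
        _ = _ := by ring
    have h6' := le_of_mul_le_mul_left h6 hrpos
    linarith
  rw [div_le_div_iff₀ (by positivity) hRpos]
  have h7 : y * R ≤ 2 * (r * n) := by
    have h8 : s * n * R = r * n := by rw [hs]; field_simp
    calc y * R ≤ (2 * (s * n)) * R := by gcongr
      _ = 2 * (s * n * R) := by ring
      _ = _ := by rw [h8]
  have h9 : (3 / 14 : ℝ) * r * R ≤ |r * x - p * y| * (2 * (r * n)) := by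
    calc (3 / 14 : ℝ) * r * R ≤ |r * x - p * y| * y * R := by gcongr
      _ = |r * x - p * y| * (y * R) := by ring
      _ ≤ _ := by gcongr
  have h10 : (r : ℝ) * ((3 / 14) * R) ≤ r * (|r * x - p * y| * (2 * n)) := by linarith
  have h11 := le_of_mul_le_mul_left h10 (by linarith)
  have h12 : 0 ≤ |r * x - p * y| * n := by positivity
  linarith

end Pool.Agent.Lib.MP_fe6546_nt
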