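import Pool.Agent.Lib.MP_fe6546_nt.Arith

/-!
The construction of the vector `θ`.
-/

open Finset

namespace Pool.Agent.Lib.MP_fe6546_nt

noncomputable def rr (B : ℕ) : ℕ := (pell_exists B).choose

noncomputable def pp (B : ℕ) : ℕ := (pell_exists B).choose_spec.choose

theorem rr_ge (B : ℕ) : B ≤ rr B := (pell_exists B).choose_spec.choose_spec.1

theorem pp_sq (B : ℕ) : pp B ^ 2 = 2 * rr B ^ 2 + 1 := (pell_exists B).choose_spec.choose_spec.2

/-- the denominators -/
noncomputable def q : ℕ → ℕ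
  | 0 => 1
  | (i + 1) => q i * (Nat.sqrt (q i ^ 3) * rr (2 ^ 24 * q i ^ 10) + pp (2 ^ 24 * q i ^ 10))

noncomputable def a (i : ℕ) : ℕ := Nat.sqrt (q i ^ 3)

noncomputable def r (i : ℕ) : ℕ := rr (2 ^ 24 * q i ^ 10)

noncomputable def p (i : ℕ) : ℕ := pp (2 ^ 24 * q i ^ 10)

noncomputable def R (i : ℕ) : ℕ := a i * r i + p i

theorem q_zero : q 0 = 1 := rfl

theorem q_succ (i : ℕ) : q (i + 1) = q i * R i := rfl

theorem a_zero : a 0 = 1 := by
  show Nat.sqrt (1 ^ 3) = 1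
  norm_num

theorem p_sq (i : ℕ) : p i ^ 2 = 2 * r i ^ 2 + 1 := pp_sq _

theorem r_ge (i : ℕ) : 2 ^ 24 * q i ^ 10 ≤ r i := rr_ge _

theorem r_le_p (i : ℕ) : r i ≤ p i := by
  have h := p_sq i
  by_contra hcon
  push Not at hcon
  have : p i ^ 2 ≤ r i ^ 2 := Nat.pow_le_pow_left hcon.le 2
  nlinarith [Nat.zero_le (r i ^ 2)]

theorem R_pos_of (i : ℕ) (h : 1 ≤ q i) : 1 ≤ R i := by
  have h1 := r_ge i
  have h2 := r_le_p i
  have h3 : 1 ≤ q i ^ 10 := Nat.one_le_pow _ _ h
  unfold R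
  omega

theorem q_pos (i : ℕ) : 1 ≤ q i := by
  induction i with
  | zero => exact le_rfl
  | succ i ih =>
    rw [q_succ]
    exact Nat.mul_pos ih (R_pos_of i ih)

theorem r_big (i : ℕ) : 2 ^ 24 ≤ r i := by
  have h1 := r_ge i
  have h3 : 1 ≤ q i ^ 10 := Nat.one_le_pow _ _ (q_pos i)
  nlinarith

theorem p_le (i : ℕ) : p i ≤ 2 * r i := by
  have h := p_sq i
  have hb := r_big i
  by_contra hcon
  push Not at hcon
  have h1 : (2 * r i + 1) ^ 2 ≤ p i ^ 2 := Nat.pow_le_pow_left hcon 2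
  nlinarith [Nat.zero_le (r i ^ 2), Nat.zero_le (r i)]

theorem a_sq_le (i : ℕ) : a i ^ 2 ≤ q i ^ 3 := by
  have := Nat.sqrt_le' (q i ^ 3)
  exact this

theorem a_pos (i : ℕ) : 1 ≤ a i := by
  have h : 1 ≤ q i ^ 3 := Nat.one_le_pow _ _ (q_pos i)
  exact Nat.sqrt_pos.mpr h

theorem le_a_sq (i : ℕ) : q i ^ 3 ≤ 4 * a i ^ 2 := by
  have h : q i ^ 3 < (a i + 1) ^ 2 := Nat.lt_succ_sqrt' (q i ^ 3)
  have h1 := a_pos i
  nlinarith

theorem R_ge (i : ℕ) : a i * r i ≤ R i := by unfold R; omega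

theorem R_ge_r (i : ℕ) : r i ≤ R i := by
  have := r_le_p i
  unfold R
  have : 0 ≤ a i * r i := Nat.zero_le _
  omega

theorem R_le (i : ℕ) : R i ≤ (a i + 2) * r i := by
  have := p_le i
  unfold R
  nlinarith

theorem R_le' (i : ℕ) : R i ≤ 3 * a i * r i := by
  have h := R_le i
  have h1 := a_pos i
  have h2 : (a i + 2) * r i ≤ 3 * a i * r i := by
    apply Nat.mul_le_mul_right; omega
  omega

theorem coprime_r_R (i : ℕ) : Nat.Coprime (R i) (r i) := by
  have h := p_sq i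
  have h1 : Nat.Coprime (p i) (r i) := by
    rw [Nat.coprime_iff_gcd_eq_one]
    have hd1 : Nat.gcd (p i) (r i) ∣ p i ^ 2 := dvd_pow (Nat.gcd_dvd_left _ _) (by norm_num)
    have hd2 : Nat.gcd (p i) (r i) ∣ 2 * r i ^ 2 :=
      Dvd.dvd.mul_left (dvd_pow (Nat.gcd_dvd_right _ _) (by norm_num)) 2
    have hd3 : Nat.gcd (p i) (r i) ∣ 1 := by
      rw [h] at hd1
      exact (Nat.dvd_add_right hd2).mp hd1
    exact Nat.dvd_one.mp hd3
  unfold R
  rw [Nat.coprime_mul_right_add_left]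
  exact h1

theorem q_growth (i : ℕ) : 2 * q i ≤ q (i + 1) := by
  rw [q_succ, mul_comm]
  apply Nat.mul_le_mul_left
  have := R_ge_r i
  have := r_big i
  omega

theorem q_ge_pow (i : ℕ) : 2 ^ i ≤ q i := by
  induction i with
  | zero => exact le_rfl
  | succ i ih =>
    have := q_growth i
    rw [pow_succ]; omega

/-- the slopes -/
noncomputable def s (i : ℕ) : ℝ := (r i : ℝ) / (R i : ℝ)

theorem R_cast (i : ℕ) : (R i : ℝ) = a i * r i + p i := by unfold R; push_cast; ring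

theorem Rr_pos (i : ℕ) : (0 : ℝ) < R i := by exact_mod_cast R_pos_of i (q_pos i)

theorem rr_pos (i : ℕ) : (0 : ℝ) < r i := by
  have := r_big i
  exact_mod_cast (by omega : 0 < r i)

theorem ar_pos (i : ℕ) : (0 : ℝ) < a i := by exact_mod_cast a_pos i

theorem qr_pos (i : ℕ) : (0 : ℝ) < q i := by exact_mod_cast q_pos i

theorem s_pos (i : ℕ) : 0 < s i := div_pos (rr_pos i) (Rr_pos i)

theorem s_le (i : ℕ) : s i ≤ 1 / a i := by
  unfold s
  rw [div_le_div_iff₀ (Rr_pos i) (ar_pos i)]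
  have : ((a i * r i : ℕ) : ℝ) ≤ R i := by exact_mod_cast R_ge i
  push_cast at this
  linarith

theorem s_ge (i : ℕ) : 1 / ((a i : ℝ) + 2) ≤ s i := by
  unfold s
  rw [div_le_div_iff₀ (by have := ar_pos i; linarith) (Rr_pos i)]
  have : (R i : ℝ) ≤ (((a i + 2) * r i : ℕ) : ℝ) := by exact_mod_cast R_le i
  push_cast at this
  linarith

theorem s_le_one (i : ℕ) : s i ≤ 1 := by
  refine (s_le i).trans ?_
  rw [div_le_one (ar_pos i)]
  exact_mod_cast a_pos i

/-- step sizes -/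
noncomputable def δ (i : ℕ) : ℝ := s i / q i

theorem δ_pos (i : ℕ) : 0 < δ i := div_pos (s_pos i) (qr_pos i)

theorem δ_half (i : ℕ) : δ (i + 1) ≤ δ i / 2 := by
  have h1 : δ (i + 1) ≤ 1 / q (i + 1) := by
    unfold δ
    gcongr
    · exact s_le_one _
  have h2 : (1 : ℝ) / q (i + 1) ≤ δ i / 2 := by
    unfold δ s
    rw [q_succ]
    push_cast
    rw [div_div, div_div, div_le_div_iff₀ (by have := Rr_pos i; have := qr_pos i; positivity)
      (by have := Rr_pos i; have := qr_pos i; positivity)]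
    have h3 : (2 : ℝ) ≤ r i := by
      have := r_big i
      exact_mod_cast (by omega : 2 ≤ r i)
    have h4 : (0 : ℝ) < q i * R i := by have := Rr_pos i; have := qr_pos i; positivity
    nlinarith
  linarith

theorem δ_geom (i j : ℕ) : δ (i + j) ≤ δ i * (1 / 2) ^ j := by
  induction j with
  | zero => simp
  | succ j ih =>
    have h := δ_half (i + j)
    rw [← add_assoc, pow_succ]
    linarith

/-- directions: all coordinates are one, except the coordinate `i mod m`, which is two. -/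
def nv (m i : ℕ) (c : Fin m) : ℕ := if i % m = c.val then 2 else 1

theorem nv_le (m i : ℕ) (c : Fin m) : nv m i c ≤ 2 := by unfold nv; split_ifs <;> omega

theorem nv_ge (m i : ℕ) (c : Fin m) : 1 ≤ nv m i c := by unfold nv; split_ifs <;> omega

/-- the vector -/
noncomputable def θ (m : ℕ) (c : Fin m) : ℝ := ∑' j, δ j * (nv m j c : ℝ)

/-- pairing of a direction with an integer vector -/
def nn (m i : ℕ) (b : Fin m → ℤ) : ℤ := ∑ c, (nv m i c : ℤ) * b c

/-- finite sections -/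
noncomputable def D (m i : ℕ) (b : Fin m → ℤ) : ℝ := ∑ j ∈ range i, δ j * (nn m j b : ℝ)

theorem D_zero (m : ℕ) (b : Fin m → ℤ) : D m 0 b = 0 := by simp [D]

theorem D_succ (m i : ℕ) (b : Fin m → ℤ) : D m (i + 1) b = D m i b + δ i * (nn m i b : ℝ) := by
  simp [D, Finset.sum_range_succ]

theorem D_int (m i : ℕ) (b : Fin m → ℤ) : ∃ u : ℤ, (q i : ℝ) * D m i b = u := by
  induction i with
  | zero => exact ⟨0, by simp [D_zero]⟩
  | succ i ih =>
    obtain ⟨u, hu⟩ := ih
    refine ⟨R i * u + r i * nn m i b, ?_⟩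
    rw [D_succ, q_succ]
    push_cast
    rw [← hu]
    unfold δ s
    have h1 := (Rr_pos i).ne'
    have h2 := (qr_pos i).ne'
    field_simp

theorem abs_nn_le (m i : ℕ) (b : Fin m → ℤ) : |(nn m i b : ℝ)| ≤ 2 * ∑ c, |(b c : ℝ)| := by
  unfold nn
  push_cast
  rw [Finset.mul_sum]
  refine (Finset.abs_sum_le_sum_abs _ _).trans (Finset.sum_le_sum fun c _ => ?_)
  rw [abs_mul]
  have h1 : |((nv m i c : ℝ))| ≤ 2 := by
    rw [abs_of_nonneg (Nat.cast_nonneg _)]
    exact_mod_cast nv_le m i c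
  gcongr

theorem summable_geom_bound (B : ℝ) (f : ℕ → ℝ) (i : ℕ) (hf : ∀ j, |f j| ≤ B) :
    Summable (fun j => δ (i + j) * f (i + j)) ∧
      |∑' j, δ (i + j) * f (i + j)| ≤ 2 * B * δ i := by
  have hg : Summable (fun j : ℕ => B * δ i * (1 / 2 : ℝ) ^ j) :=
    (summable_geometric_of_lt_one (by norm_num) (by norm_num)).mul_left _
  have hB : 0 ≤ B := (abs_nonneg _).trans (hf 0)
  have hle : ∀ j, ‖δ (i + j) * f (i + j)‖ ≤ B * δ i * (1 / 2 : ℝ) ^ j := by
    intro j
    rw [Real.norm_eq_abs, abs_mul, abs_of_pos (δ_pos _)]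
    calc δ (i + j) * |f (i + j)| ≤ (δ i * (1 / 2) ^ j) * B := by
          gcongr
          · have := δ_pos i; positivity
          · exact δ_geom i j
          · exact hf _
      _ = _ := by ring
  have hs := Summable.of_norm_bounded hg hle
  refine ⟨hs, ?_⟩
  have h1 := tsum_of_norm_bounded (hg.hasSum) hle
  rw [tsum_mul_left, tsum_geometric_of_lt_one (by norm_num) (by norm_num)] at h1
  rw [Real.norm_eq_abs] at h1
  refine h1.trans (le_of_eq ?_)
  norm_num
  ring

theorem summable_nv (m : ℕ) (c : Fin m) : Summable (fun j => δ j * (nv m j c : ℝ)) := by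
  have := (summable_geom_bound 2 (fun j => (nv m j c : ℝ)) 0 (fun j => by
    rw [abs_of_nonneg (Nat.cast_nonneg _)]; exact_mod_cast nv_le m j c)).1
  simpa using this

theorem full_eq (m : ℕ) (b : Fin m → ℤ) :
    ∑ c, θ m c * (b c : ℝ) = ∑' j, δ j * (nn m j b : ℝ) := by
  unfold θ
  have h1 : ∀ c, (∑' j, δ j * (nv m j c : ℝ)) * (b c : ℝ) =
      ∑' j, δ j * (nv m j c : ℝ) * (b c : ℝ) := fun c => (tsum_mul_right).symm
  simp_rw [h1]
  rw [← Summable.tsum_finsetSum (fun c _ => (summable_nv m c).mul_right _)]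
  congr 1
  ext j
  unfold nn
  push_cast
  rw [Finset.mul_sum]
  refine Finset.sum_congr rfl fun c _ => ?_
  ring

theorem tail_bound (m i : ℕ) (b : Fin m → ℤ) :
    |∑ c, θ m c * (b c : ℝ) - D m i b| ≤ 4 * (∑ c, |(b c : ℝ)|) * δ i := by
  rw [full_eq]
  have hs : Summable (fun j => δ j * (nn m j b : ℝ)) := by
    have := (summable_geom_bound _ (fun j => (nn m j b : ℝ)) 0 (fun j => abs_nn_le m j b)).1
    simpa using this
  have h1 := hs.sum_add_tsum_nat_add i
  have h2 := (summable_geom_bound _ (fun j => (nn m j b : ℝ)) i (fun j => abs_nn_le m j b)).2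
  have h3 : ∑' j, δ j * (nn m j b : ℝ) - D m i b = ∑' j, δ (i + j) * (nn m (i + j) b : ℝ) := by
    rw [← h1]
    unfold D
    simp only [add_comm i]
    ring
  rw [h3]
  refine h2.trans (le_of_eq ?_)
  ring

end Pool.Agent.Lib.MP_fe6546_nt
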