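import Pool.Agent.Lib.MP_fe6546_nt.Stage

/-!
Linear independence of `1, θ_1, …, θ_m` and the exponent statement.
-/

open Finset

namespace Pool.Agent.Lib.MP_fe6546_nt

theorem a_large (B : ℝ) : ∃ i0 : ℕ, ∀ i ≥ i0, B < a i := by
  obtain ⟨n, hn⟩ := pow_unbounded_of_one_lt B (by norm_num : (1 : ℝ) < 2)
  refine ⟨n + 1, fun i hi => ?_⟩
  have h1 : (2 : ℝ) ^ i ≤ q i := by exact_mod_cast q_ge_pow i
  have h2 : (2 : ℝ) ^ (n + 1) ≤ 2 ^ i := pow_le_pow_right₀ (by norm_num) hi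
  have h3 : (q i : ℝ) ^ 3 ≤ 4 * (a i : ℝ) ^ 2 := by exact_mod_cast le_a_sq i
  have h4 : (1 : ℝ) ≤ q i := by exact_mod_cast q_pos i
  have h5 : (2 : ℝ) ^ (n + 1) = 2 * 2 ^ n := by ring
  have h6 : (q i : ℝ) / 2 ≤ a i := by
    apply le_of_sq_le_sq _ (ar_pos i).le
    have : (q i : ℝ) ^ 2 ≤ (q i : ℝ) ^ 3 := pow_le_pow_right₀ h4 (by norm_num)
    nlinarith
  linarith

theorem indep_aux {m : ℕ} (hm : 0 < m) (c0 : ℤ) (b : Fin m → ℤ)
    (h : (c0 : ℝ) + ∑ c, θ m c * (b c : ℝ) = 0) : c0 = 0 ∧ ∀ c, b c = 0 := by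
  set B : ℝ := ∑ c, |(b c : ℝ)| with hB
  have hB0 : 0 ≤ B := Finset.sum_nonneg fun c _ => abs_nonneg _
  obtain ⟨i0, hi0⟩ := a_large (4 * B)
  have hzero : ∀ i ≥ i0, (c0 : ℝ) + D m i b = 0 := by
    intro i hi
    obtain ⟨u, hu⟩ := D_int m i b
    have hq := qr_pos i
    have ha := ar_pos i
    have ht := tail_bound m i b
    rw [← hB] at ht
    have h1 : |(c0 : ℝ) + D m i b| ≤ 4 * B * δ i := by
      have : (c0 : ℝ) + D m i b = -(∑ c, θ m c * (b c : ℝ) - D m i b) := by linarith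
      rw [this, abs_neg]
      exact ht
    have h2 : |(q i : ℝ) * (c0 + D m i b)| < 1 := by
      rw [abs_mul, abs_of_pos hq]
      calc (q i : ℝ) * |(c0 : ℝ) + D m i b| ≤ q i * (4 * B * δ i) := by gcongr
        _ = 4 * B * s i := by unfold δ; field_simp
        _ ≤ 4 * B * (1 / a i) := by
            have := s_le i
            gcongr
        _ < 1 := by
            rw [mul_one_div, div_lt_one ha]
            exact hi0 i hi
    have h3 : (q i : ℝ) * (c0 + D m i b) = ((q i * c0 + u : ℤ) : ℝ) := by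
      push_cast; rw [← hu]; ring
    rw [h3] at h2
    have h4 : (q i * c0 + u : ℤ) = 0 := by
      have : |(q i * c0 + u : ℤ)| < 1 := by exact_mod_cast h2
      exact Int.abs_lt_one_iff.mp this
    have h5 : (q i : ℝ) * (c0 + D m i b) = 0 := by rw [h3, h4]; simp
    exact (mul_eq_zero.mp h5).resolve_left hq.ne'
  have hnn : ∀ i ≥ i0, nn m i b = 0 := by
    intro i hi
    have h1 := hzero i hi
    have h2 := hzero (i + 1) (by omega)
    rw [D_succ] at h2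
    have h3 : δ i * (nn m i b : ℝ) = 0 := by linarith
    have h4 := (mul_eq_zero.mp h3).resolve_left (δ_pos i).ne'
    exact_mod_cast h4
  have hb : ∀ c : Fin m, ∑ d, b d + b c = 0 := by
    intro c
    have h1 := hnn (i0 * m + c) (by nlinarith [c.2])
    unfold nn at h1
    have h2 : (i0 * m + (c : ℕ)) % m = c := by
      rw [Nat.mul_comm, Nat.mul_add_mod, Nat.mod_eq_of_lt c.2]
    have h3 : ∀ d : Fin m, (nv m (i0 * m + c) d : ℤ) * b d = b d + if c = d then b d else 0 := by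
      intro d
      unfold nv
      rw [h2]
      by_cases hcd : c = d
      · subst hcd; simp; ring
      · have : ¬ ((c : ℕ) = (d : ℕ)) := fun h => hcd (Fin.ext h)
        simp [hcd, this]
    simp_rw [h3] at h1
    rw [Finset.sum_add_distrib, Finset.sum_ite_eq] at h1
    simpa using h1
  have hsum : ∑ d, b d = 0 := by
    have h1 : ∑ c : Fin m, (∑ d, b d + b c) = 0 := Finset.sum_eq_zero fun c _ => hb c
    rw [Finset.sum_add_distrib, Finset.sum_const, Finset.card_univ, Fintype.card_fin,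
      nsmul_eq_mul] at h1
    have h2 : ((m : ℤ) + 1) * ∑ d, b d = 0 := by linarith
    rcases mul_eq_zero.mp h2 with h | h
    · exfalso; have : (0 : ℤ) ≤ m := by positivity
      omega
    · exact h
  have hb0 : ∀ c, b c = 0 := by
    intro c
    have := hb c
    omega
  refine ⟨?_, hb0⟩
  have h1 : ∑ c, θ m c * (b c : ℝ) = 0 := Finset.sum_eq_zero fun c _ => by rw [hb0 c]; simp
  rw [h1, add_zero] at h
  exact_mod_cast h

theorem linearIndependent_cons {m : ℕ} (hm : 0 < m) :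
    LinearIndependent ℤ (Fin.cons (1 : ℝ) (θ m) : Fin (m + 1) → ℝ) := by
  rw [Fintype.linearIndependent_iff]
  intro g hg
  rw [Fin.sum_univ_succ] at hg
  simp only [Fin.cons_zero, Fin.cons_succ, zsmul_eq_mul, mul_one] at hg
  obtain ⟨h0, h1⟩ := indep_aux hm (g 0) (fun c => g c.succ) (by
    rw [← hg]
    congr 1
    refine Finset.sum_congr rfl fun c _ => ?_
    ring)
  intro i
  refine Fin.cases h0 h1 i

/-- lower bound in terms of the maximum `t` -/
theorem bound_t {m : ℕ} (hm : 0 < m) (x : Fin m → ℕ) (t : ℝ)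
    (hx : ∀ c, 1 ≤ x c ∧ (x c : ℝ) ≤ t) (y : ℤ) :
    1 / (512 * ((m : ℝ) * t) ^ (7 / 4 : ℝ)) ≤ |∑ c, θ m c * (x c : ℝ) - y| := by
  have h1 : ∀ c, 1 ≤ ((x c : ℕ) : ℤ) := fun c => by exact_mod_cast (hx c).1
  obtain ⟨S, hS⟩ : ∃ S : ℝ, S = ∑ c, (((x c : ℕ) : ℤ) : ℝ) := ⟨_, rfl⟩
  have hS1 : 1 ≤ S := by
    have := sum_one_le hm (fun c => ((x c : ℕ) : ℤ)) h1
    rw [hS]; exact_mod_cast this
  have hSt : S ≤ m * t := by
    rw [hS]
    calc ∑ c, (((x c : ℕ) : ℤ) : ℝ) ≤ ∑ _c : Fin m, t := by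
          refine Finset.sum_le_sum fun c _ => ?_
          push_cast
          exact (hx c).2
      _ = m * t := by simp
  have hσ : 0 < S ^ (7 / 4 : ℝ) := Real.rpow_pos_of_pos (by linarith) _
  have hσS : (S ^ (7 / 4 : ℝ)) ^ 4 = S ^ 7 := by
    rw [← Real.rpow_natCast, ← Real.rpow_mul (by linarith)]
    norm_num
  have h2 := main_bound hm (fun c => ((x c : ℕ) : ℤ)) h1 y S (S ^ (7 / 4 : ℝ)) hS hσ hσS
  have h3 : S ^ (7 / 4 : ℝ) ≤ ((m : ℝ) * t) ^ (7 / 4 : ℝ) :=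
    Real.rpow_le_rpow (by linarith) hSt (by norm_num)
  refine le_trans ?_ (by simpa using h2)
  have : (0 : ℝ) < 512 * S ^ (7 / 4 : ℝ) := by positivity
  have h4 := one_div_le_one_div_of_le this (by linarith : 512 * S ^ (7 / 4 : ℝ) ≤
    512 * ((m : ℝ) * t) ^ (7 / 4 : ℝ))
  simpa using h4

open Filter in
theorem exponent_le {m : ℕ} (hm : 0 < m) (γ : ℝ)
    (h : ∃ C : ℝ, ∃ᶠ t : ℝ in atTop, ∃ x : Fin m → ℕ, (∀ i, 1 ≤ x i ∧ (x i : ℝ) ≤ t) ∧
      t ^ γ * |(∑ i, θ m i * (x i : ℝ)) - (round (∑ i, θ m i * (x i : ℝ)) : ℝ)| ≤ C) :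
    γ ≤ 7 / 4 := by
  by_contra hcon
  push Not at hcon
  obtain ⟨C, hC⟩ := h
  have hmr : (0 : ℝ) < m := by exact_mod_cast hm
  -- eventually large
  have hlim : Tendsto (fun t : ℝ => t ^ (γ - 7 / 4) * (1 / (512 * (m : ℝ) ^ (7 / 4 : ℝ))))
      atTop atTop := by
    apply Tendsto.atTop_mul_const
    · positivity
    · exact tendsto_rpow_atTop (by linarith)
  have hev := (hlim.eventually_gt_atTop C).and (eventually_gt_atTop (0 : ℝ))
  obtain ⟨t, ⟨x, hx, hle⟩, hgt, ht0⟩ := (hC.and_eventually hev).exists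
  have hb := bound_t hm x t hx (round (∑ i, θ m i * (x i : ℝ)))
  have h1 : t ^ γ * (1 / (512 * ((m : ℝ) * t) ^ (7 / 4 : ℝ))) ≤ C := by
    refine le_trans ?_ hle
    gcongr
  have h2 : t ^ γ * (1 / (512 * ((m : ℝ) * t) ^ (7 / 4 : ℝ))) =
      t ^ (γ - 7 / 4) * (1 / (512 * (m : ℝ) ^ (7 / 4 : ℝ))) := by
    rw [Real.mul_rpow hmr.le ht0.le, Real.rpow_sub ht0]
    field_simp
  rw [h2] at h1
  linarith

end Pool.Agent.Lib.MP_fe6546_nt
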