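import Pool.Agent.Lib.MP_fe6546_nt.Construct

/-!
The main inequality.
-/

open Finset

namespace Pool.Agent.Lib.MP_fe6546_nt

theorem a_pow4_le (i : ℕ) : a i ^ 4 ≤ q i ^ 6 := by
  have h := a_sq_le i
  calc a i ^ 4 = (a i ^ 2) ^ 2 := by ring
    _ ≤ (q i ^ 3) ^ 2 := Nat.pow_le_pow_left h 2
    _ = q i ^ 6 := by ring

theorem sum_one_le {m : ℕ} (hm : 0 < m) (x : Fin m → ℤ) (hx : ∀ c, 1 ≤ x c) : 1 ≤ ∑ c, x c := by
  have h1 : ∑ c : Fin m, (1 : ℤ) ≤ ∑ c, x c := Finset.sum_le_sum fun c _ => hx c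
  simp at h1
  have : (1 : ℤ) ≤ m := by exact_mod_cast hm
  omega

theorem nn_bounds {m : ℕ} (i : ℕ) (x : Fin m → ℤ) (hx : ∀ c, 1 ≤ x c) :
    ∑ c, x c ≤ nn m i x ∧ nn m i x ≤ 2 * ∑ c, x c := by
  unfold nn
  constructor
  · refine Finset.sum_le_sum fun c _ => ?_
    have h1 : (1 : ℤ) ≤ nv m i c := by exact_mod_cast nv_ge m i c
    have h2 := hx c
    nlinarith
  · rw [Finset.mul_sum]
    refine Finset.sum_le_sum fun c _ => ?_
    have h1 : (nv m i c : ℤ) ≤ 2 := by exact_mod_cast nv_le m i c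
    have h2 := hx c
    nlinarith

/-- the resonant case: if `P_{j+1} · x` is an integer then `x` is large -/
theorem resonant {m : ℕ} (j : ℕ) (x : Fin m → ℤ) (hx : ∀ c, 1 ≤ x c) (hm : 0 < m) (y : ℤ)
    (h : D m (j + 1) x = y) : (R j : ℤ) ≤ 2 * ∑ c, x c := by
  obtain ⟨u, hu⟩ := D_int m j x
  rw [D_succ] at h
  have hq := (qr_pos j).ne'
  have hR := (Rr_pos j).ne'
  have h1 : (r j : ℝ) * nn m j x = R j * (q j * y - u) := by
    rw [← hu, ← h]
    unfold δ s
    field_simp
    ring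
  have h2 : (r j : ℤ) * nn m j x = R j * (q j * y - u) := by exact_mod_cast h1
  have h3 : (R j : ℤ) ∣ (r j : ℤ) * nn m j x := ⟨_, h2⟩
  have h4 : IsCoprime (R j : ℤ) (r j : ℤ) := Nat.isCoprime_iff_coprime.mpr (coprime_r_R j)
  have h5 : (R j : ℤ) ∣ nn m j x := h4.dvd_of_dvd_mul_left h3
  have h6 := nn_bounds j x hx
  have h7 := sum_one_le hm x hx
  have h8 := Int.le_of_dvd (by omega) h5
  omega

theorem stage {m : ℕ} (hm : 0 < m) (i : ℕ) (x : Fin m → ℤ) (hx : ∀ c, 1 ≤ x c) (y : ℤ)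
    (S σ : ℝ) (hS : S = ∑ c, (x c : ℝ)) (hσ : 0 < σ) (hσS : σ ^ 4 = S ^ 7)
    (hlow : i = 0 ∨ (q i : ℝ) ^ 4 < S ^ 7) (hup : S ^ 7 ≤ (q (i + 1) : ℝ) ^ 4) :
    1 / (256 * σ) ≤ |D m (i + 1) x - y| := by
  have hSZ : S = ((∑ c, x c : ℤ) : ℝ) := by rw [hS]; push_cast; rfl
  have hS1 : 1 ≤ S := by
    rw [hSZ]; exact_mod_cast sum_one_le hm x hx
  have hS0 : 0 < S := by linarith
  have hσ1 : 1 ≤ σ := by
    by_contra hcon
    push Not at hcon
    have : σ ^ 4 < 1 := pow_lt_one₀ hσ.le hcon (by norm_num)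
    have h7 : 1 ≤ S ^ 7 := one_le_pow₀ hS1
    linarith
  obtain ⟨N, hN⟩ : ∃ N : ℝ, N = (nn m i x : ℝ) := ⟨_, rfl⟩
  have hN1 : S ≤ N := by rw [hSZ, hN]; exact_mod_cast (nn_bounds i x hx).1
  have hN2 : N ≤ 2 * S := by rw [hSZ, hN]; exact_mod_cast (nn_bounds i x hx).2
  obtain ⟨u, hu⟩ := D_int m i x
  have hq := qr_pos i
  have ha := ar_pos i
  have hs := s_pos i
  have hq1 : (1 : ℝ) ≤ q i := by exact_mod_cast q_pos i
  have ha1 : (1 : ℝ) ≤ a i := by exact_mod_cast a_pos i
  obtain ⟨w, hw⟩ : ∃ w : ℤ, w = q i * y - u := ⟨_, rfl⟩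
  have hwr : (w : ℝ) = q i * y - u := by rw [hw]; push_cast; ring
  have hD : D m (i + 1) x - y = (s i * N - w) / q i := by
    rw [D_succ, hwr, ← hu, ← hN]
    unfold δ
    field_simp
    ring
  have ha4 : (a i : ℝ) ^ 4 ≤ (q i : ℝ) ^ 6 := by exact_mod_cast a_pow4_le i
  have hN0 : 0 < N := by linarith
  rw [hD, abs_div, abs_of_pos hq]
  by_cases hsN : s i * N ≤ 1 / 2
  · by_cases hw0 : w = 0
    · -- resonant case
      have hsN0 : S / (a i + 2) ≤ s i * N := by
        calc S / (a i + 2) = 1 / ((a i : ℝ) + 2) * S := by ring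
          _ ≤ s i * N := by
            have := s_ge i
            gcongr
      rw [hw0]
      have e0 : |s i * N - ((0 : ℤ) : ℝ)| = s i * N := by
        rw [Int.cast_zero, sub_zero, abs_of_nonneg]; positivity
      rw [e0]
      have key : (q i : ℝ) * (a i + 2) ≤ 256 * S * σ := by
        rcases i with _ | j
        · rw [q_zero, a_zero]
          have : 1 ≤ S * σ := by nlinarith
          push_cast
          linarith
        · have hDy : D m (j + 1) x = y := by
            have h1 : (q (j + 1) : ℝ) * D m (j + 1) x = q (j + 1) * y := by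
              rw [hu]
              rw [hw0] at hwr
              push_cast at hwr
              linarith
            exact mul_left_cancel₀ hq.ne' h1
          have hres := resonant j x hx hm y hDy
          have hresR : (R j : ℝ) ≤ 2 * S := by rw [hSZ]; exact_mod_cast hres
          have hRj := Rr_pos j
          have hrj : (2 : ℝ) ^ 24 * (q j : ℝ) ^ 10 ≤ R j := by
            have h1 := r_ge j
            have h2 := R_ge_r j
            exact_mod_cast h1.trans h2
          have hqj : (0 : ℝ) < q j := qr_pos j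
          have hqs : (q (j + 1) : ℝ) = q j * R j := by rw [q_succ]; push_cast; ring
          -- fourth powers
          have h4 : ((q (j + 1) : ℝ) * (a (j + 1) + 2)) ^ 4 ≤ (256 * S * σ) ^ 4 := by
            calc ((q (j + 1) : ℝ) * (a (j + 1) + 2)) ^ 4
                ≤ ((q (j + 1) : ℝ) * (3 * a (j + 1))) ^ 4 := by
                  gcongr
                  linarith
              _ = 81 * (q (j + 1) : ℝ) ^ 4 * (a (j + 1) : ℝ) ^ 4 := by ring
              _ ≤ 81 * (q (j + 1) : ℝ) ^ 4 * (q (j + 1) : ℝ) ^ 6 := by gcongr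
              _ = 81 * ((q j : ℝ) ^ 10 * (R j : ℝ) ^ 10) := by rw [hqs]; ring
              _ ≤ 81 * (((R j : ℝ) / 2 ^ 24) * (R j : ℝ) ^ 10) := by
                  gcongr
                  rw [le_div_iff₀ (by norm_num)]
                  linarith
              _ = 81 / 2 ^ 24 * (R j : ℝ) ^ 11 := by ring
              _ ≤ 81 / 2 ^ 24 * (2 * S) ^ 11 := by gcongr
              _ ≤ 256 ^ 4 * (S ^ 4 * S ^ 7) := by
                  have : 0 < S ^ 11 := by positivity
                  nlinarith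
              _ = (256 * S * σ) ^ 4 := by rw [← hσS]; ring
          exact le_of_pow_le_pow_left₀ (by norm_num) (by positivity) h4
      calc 1 / (256 * σ) ≤ S / (a i + 2) / q i := by
            rw [div_div, div_le_div_iff₀ (by positivity) (by positivity)]
            linarith
        _ ≤ s i * N / q i := by gcongr
    · -- non-resonant case
      have h1 : (1 : ℝ) / 2 ≤ |s i * N - w| := by
        have hpos : 0 ≤ s i * N := by positivity
        rcases lt_or_gt_of_ne hw0 with h | h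
        · have : (w : ℝ) ≤ -1 := by exact_mod_cast (by omega : w ≤ -1)
          rw [abs_of_nonneg (by linarith)]
          linarith
        · have : (1 : ℝ) ≤ w := by exact_mod_cast (by omega : 1 ≤ w)
          rw [abs_of_nonpos (by linarith)]
          linarith
      have h2 : (q i : ℝ) ≤ σ := by
        rcases hlow with h0 | h0
        · rw [h0, q_zero]; simpa using hσ1
        · rw [← hσS] at h0
          exact le_of_pow_le_pow_left₀ (by norm_num) hσ.le h0.le
      calc 1 / (256 * σ) ≤ (1 / 2) / q i := by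
            rw [div_div, div_le_div_iff₀ (by positivity) (by positivity)]
            linarith
        _ ≤ _ := by gcongr
  · -- large case
    push Not at hsN
    have hSa : a i < 4 * S := by
      have h1 : s i * N ≤ 1 / a i * (2 * S) := by
        have := s_le i
        gcongr
      have h2 : (1 : ℝ) / 2 < 2 * S / a i := by
        calc (1 : ℝ) / 2 < s i * N := hsN
          _ ≤ 1 / a i * (2 * S) := h1
          _ = _ := by ring
      rw [lt_div_iff₀ ha] at h2
      linarith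
    have hr24 : (2 : ℝ) ^ 24 ≤ r i := by exact_mod_cast r_big i
    have hrpos := rr_pos i
    have h8S : 8 * S ≤ r i := by
      have h7 : (8 * S) ^ 7 ≤ (r i : ℝ) ^ 7 := by
        have hR3 : (R i : ℝ) ≤ 3 * a i * r i := by exact_mod_cast R_le' i
        have hqs : (q (i + 1) : ℝ) = q i * R i := by rw [q_succ]; push_cast; ring
        have hRpos := Rr_pos i
        calc (8 * S) ^ 7 = 8 ^ 7 * S ^ 7 := by ring
          _ ≤ 8 ^ 7 * (q (i + 1) : ℝ) ^ 4 := by gcongr
          _ = 8 ^ 7 * (q i * R i : ℝ) ^ 4 := by rw [hqs]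
          _ ≤ 8 ^ 7 * (q i * (3 * a i * r i) : ℝ) ^ 4 := by gcongr
          _ = 8 ^ 7 * 81 * ((q i : ℝ) ^ 4 * (a i : ℝ) ^ 4 * (r i : ℝ) ^ 4) := by ring
          _ ≤ 8 ^ 7 * 81 * ((q i : ℝ) ^ 4 * (q i : ℝ) ^ 6 * (r i : ℝ) ^ 4) := by gcongr
          _ = 8 ^ 7 * 81 * ((q i : ℝ) ^ 10 * (r i : ℝ) ^ 4) := by ring
          _ ≤ 8 ^ 7 * 81 * (((r i : ℝ) / 2 ^ 24) * (r i : ℝ) ^ 4) := by
              gcongr
              rw [le_div_iff₀ (by norm_num)]
              have h1 := r_ge i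
              have h2 : ((2 ^ 24 * q i ^ 10 : ℕ) : ℝ) ≤ r i := by exact_mod_cast h1
              push_cast at h2
              linarith
          _ = (8 ^ 7 * 81 / 2 ^ 24) * (r i : ℝ) ^ 5 := by ring
          _ ≤ (r i : ℝ) ^ 2 * (r i : ℝ) ^ 5 := by
              gcongr
              nlinarith
          _ = (r i : ℝ) ^ 7 := by ring
      exact le_of_pow_le_pow_left₀ (by norm_num) hrpos.le h7
    have hup2 : s i * N ≤ r i / 4 := by
      have h1 : s i * N ≤ 1 * (2 * S) := by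
        have := s_le_one i
        gcongr
      linarith
    have hr2 : 2 ≤ r i := by have := r_big i; omega
    have hNint : (1 : ℤ) ≤ nn m i x := by
      have := (nn_bounds i x hx).1
      have := sum_one_le hm x hx
      omega
    have hsdef : s i = (r i : ℝ) / (a i * r i + p i) := by unfold s; rw [R_cast]
    have hQ := lemmaQ (a i) (r i) (p i) (nn m i x) w hr2 (p_sq i) hNint
      (by rw [← hsdef, ← hN]; exact hsN.le) (by rw [← hsdef, ← hN]; exact hup2)
    rw [← hsdef, ← hN] at hQ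
    have key : S * q i ≤ 8 * σ := by
      have h4 : (S * q i) ^ 4 ≤ (8 * σ) ^ 4 := by
        have h9 : (q i : ℝ) ^ 4 ≤ 512 * S ^ 3 := by
          have h10 : ((q i : ℝ) ^ 4) ^ 2 ≤ (512 * S ^ 3) ^ 2 := by
            have hle : (q i : ℝ) ^ 3 ≤ 4 * (a i : ℝ) ^ 2 := by exact_mod_cast le_a_sq i
            calc ((q i : ℝ) ^ 4) ^ 2 = (q i : ℝ) ^ 8 * 1 := by ring
              _ ≤ (q i : ℝ) ^ 8 * q i := by gcongr
              _ = ((q i : ℝ) ^ 3) ^ 3 := by ring
              _ ≤ (4 * (a i : ℝ) ^ 2) ^ 3 := by gcongr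
              _ = 64 * (a i : ℝ) ^ 6 := by ring
              _ ≤ 64 * (4 * S) ^ 6 := by gcongr
              _ = (512 * S ^ 3) ^ 2 := by ring
          exact le_of_pow_le_pow_left₀ (by norm_num) (by positivity) h10
        calc (S * q i) ^ 4 = S ^ 4 * (q i : ℝ) ^ 4 := by ring
          _ ≤ S ^ 4 * (512 * S ^ 3) := by gcongr
          _ = 512 * S ^ 7 := by ring
          _ ≤ 4096 * S ^ 7 := by
              have : 0 < S ^ 7 := by positivity
              linarith
          _ = (8 * σ) ^ 4 := by rw [← hσS]; ring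
      exact le_of_pow_le_pow_left₀ (by norm_num) (by positivity) h4
    calc 1 / (256 * σ) ≤ 1 / (16 * N) / q i := by
          rw [div_div]
          apply one_div_le_one_div_of_le (by positivity)
          nlinarith
      _ ≤ |s i * N - w| / q i := by gcongr

/-- The main theorem: for positive integer vectors the linear form stays away from integers. -/
theorem main_bound {m : ℕ} (hm : 0 < m) (x : Fin m → ℤ) (hx : ∀ c, 1 ≤ x c) (y : ℤ)
    (S σ : ℝ) (hS : S = ∑ c, (x c : ℝ)) (hσ : 0 < σ) (hσS : σ ^ 4 = S ^ 7) :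
    1 / (512 * σ) ≤ |∑ c, θ m c * (x c : ℝ) - y| := by
  have hSZ : S = ((∑ c, x c : ℤ) : ℝ) := by rw [hS]; push_cast; rfl
  have hS1 : 1 ≤ S := by
    rw [hSZ]; exact_mod_cast sum_one_le hm x hx
  have hS0 : 0 < S := by linarith
  -- choose the stage
  have hex : ∃ i : ℕ, S ^ 7 ≤ (q (i + 1) : ℝ) ^ 4 := by
    obtain ⟨n, hn⟩ := pow_unbounded_of_one_lt (S ^ 7) (by norm_num : (1 : ℝ) < 2)
    refine ⟨n, ?_⟩
    have h1 : (2 : ℝ) ^ (n + 1) ≤ q (n + 1) := by exact_mod_cast q_ge_pow (n + 1)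
    have h2 : (2 : ℝ) ^ n ≤ 2 ^ (n + 1) := pow_le_pow_right₀ (by norm_num) (by omega)
    have h3 : (1 : ℝ) ≤ q (n + 1) := by exact_mod_cast q_pos (n + 1)
    calc S ^ 7 ≤ q (n + 1) := by linarith
      _ = (q (n + 1) : ℝ) ^ 1 := by ring
      _ ≤ (q (n + 1) : ℝ) ^ 4 := pow_le_pow_right₀ h3 (by norm_num)
  classical
  let i := Nat.find hex
  have hup : S ^ 7 ≤ (q (i + 1) : ℝ) ^ 4 := Nat.find_spec hex
  have hlow : i = 0 ∨ (q i : ℝ) ^ 4 < S ^ 7 := by
    rcases Nat.eq_zero_or_pos i with h | h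
    · exact Or.inl h
    · right
      have := Nat.find_min hex (m := i - 1) (by omega)
      push Not at this
      rwa [show i - 1 + 1 = i by omega] at this
  have hst := stage hm i x hx y S σ hS hσ hσS hlow hup
  have ht := tail_bound m (i + 1) x
  have habs : ∑ c, |(x c : ℝ)| = S := by
    rw [hS]
    refine Finset.sum_congr rfl fun c _ => ?_
    apply abs_of_nonneg
    have : (1 : ℝ) ≤ x c := by exact_mod_cast hx c
    linarith
  rw [habs] at ht
  have hq := qr_pos (i + 1)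
  have ha := ar_pos (i + 1)
  have hq1 : (1 : ℝ) ≤ q (i + 1) := by exact_mod_cast q_pos (i + 1)
  have hq24 : (2 : ℝ) ^ 24 ≤ q (i + 1) := by
    have h1 : 2 ^ 24 ≤ q (i + 1) := by
      rw [q_succ]
      have h2 := r_big i
      have h3 := R_ge_r i
      have h4 := q_pos i
      calc 2 ^ 24 ≤ R i := by omega
        _ = 1 * R i := by ring
        _ ≤ q i * R i := Nat.mul_le_mul_right _ h4
    exact_mod_cast h1
  have key : 2048 * S * σ ≤ a (i + 1) * q (i + 1) := by
    have hSq : S ≤ q (i + 1) := by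
      have h1 : S ^ 7 ≤ (q (i + 1) : ℝ) ^ 7 :=
        hup.trans (pow_le_pow_right₀ hq1 (by norm_num))
      exact le_of_pow_le_pow_left₀ (by norm_num) hq.le h1
    have h4 : (2048 * S * σ) ^ 4 ≤ ((a (i + 1) : ℝ) * q (i + 1)) ^ 4 := by
      have hle : (q (i + 1) : ℝ) ^ 3 ≤ 4 * (a (i + 1) : ℝ) ^ 2 := by exact_mod_cast le_a_sq (i + 1)
      calc (2048 * S * σ) ^ 4 = 2048 ^ 4 * (S ^ 7 * S ^ 4) := by rw [← hσS]; ring
        _ ≤ 2048 ^ 4 * ((q (i + 1) : ℝ) ^ 4 * (q (i + 1) : ℝ) ^ 4) := by gcongr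
        _ = ((q (i + 1) : ℝ) ^ 8 / 16) * (2 ^ 24) ^ 2 := by ring
        _ ≤ ((q (i + 1) : ℝ) ^ 8 / 16) * (q (i + 1) : ℝ) ^ 2 := by gcongr
        _ = ((q (i + 1) : ℝ) ^ 3) ^ 2 / 16 * (q (i + 1) : ℝ) ^ 4 := by ring
        _ ≤ (4 * (a (i + 1) : ℝ) ^ 2) ^ 2 / 16 * (q (i + 1) : ℝ) ^ 4 := by gcongr
        _ = ((a (i + 1) : ℝ) * q (i + 1)) ^ 4 := by ring
    exact le_of_pow_le_pow_left₀ (by norm_num) (by positivity) h4
  have hδ : δ (i + 1) ≤ 1 / (a (i + 1) * q (i + 1)) := by
    unfold δ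
    rw [div_le_iff₀ hq]
    calc s (i + 1) ≤ 1 / a (i + 1) := s_le _
      _ = 1 / (a (i + 1) * q (i + 1)) * q (i + 1) := by field_simp
  have ht2 : |∑ c, θ m c * (x c : ℝ) - D m (i + 1) x| ≤ 1 / (512 * σ) := by
    refine ht.trans ?_
    calc 4 * S * δ (i + 1) ≤ 4 * S * (1 / (a (i + 1) * q (i + 1))) := by gcongr
      _ ≤ 1 / (512 * σ) := by
          rw [mul_one_div, div_le_div_iff₀ (by positivity) (by positivity)]
          linarith
  have h5 : |D m (i + 1) x - y| ≤ |∑ c, θ m c * (x c : ℝ) - D m (i + 1) x| +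
      |∑ c, θ m c * (x c : ℝ) - y| := by
    have : D m (i + 1) x - y = -(∑ c, θ m c * (x c : ℝ) - D m (i + 1) x) +
      (∑ c, θ m c * (x c : ℝ) - y) := by ring
    rw [this]
    refine (abs_add_le _ _).trans ?_
    rw [abs_neg]
  have h6 : 1 / (256 * σ) = 1 / (512 * σ) + 1 / (512 * σ) := by
    field_simp
    norm_num
  linarith

end Pool.Agent.Lib.MP_fe6546_nt
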